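import Mathlib
import Pool.Agent.H8.HypP

set_option autoImplicit false

namespace Pool.Agent.Results.MP_f79668_an.NotMonotone

open Polynomial Pool.Agent.H8.HypP

/-- `p ↦ a₀ + 4 a₁ x + a₂ (7 x² - 1)`. -/
noncomputable def T : ℝ[X] →ₗ[ℝ] ℝ[X] :=
  (lcoeff ℝ 0).smulRight 1 + (lcoeff ℝ 1).smulRight (C 4 * X) +
    (lcoeff ℝ 2).smulRight (C 7 * X ^ 2 - 1)

/-- The basis. -/
noncomputable def B (k : ℕ) : ℝ[X] := if k = 2 then X ^ 2 - C (1 / 6) else X ^ k

/-- The eigenvalues. -/
def γ : ℕ → ℝ
  | 0 => 1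
  | 1 => 4
  | 2 => 7
  | _ + 3 => 0

/-- `(-x)^k / k!`. -/
noncomputable def E (k : ℕ) : ℝ[X] := C ((-1 : ℝ) ^ k / k.factorial) * X ^ k

/-- The coefficient polynomials. -/
noncomputable def Q : ℕ → ℝ[X]
  | 0 => E 0
  | 1 => E 1 + C 4 * X * E 0
  | k + 2 => E (k + 2) + C 4 * X * E (k + 1) + C (1 / 2) * (C 7 * X ^ 2 - 1) * E k

theorem T_apply (p : ℝ[X]) : T p = p.coeff 0 • (1 : ℝ[X]) + p.coeff 1 • (C 4 * X) +
    p.coeff 2 • (C 7 * X ^ 2 - 1) := rfl

theorem at0 (p : ℝ[X]) (N : ℕ) (hN : p.natDegree < N) (x : ℝ) :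
    p.coeff 0 = ∑ k ∈ Finset.range N, (E k).eval x * (derivative^[k] p).eval x := by
  have := tay p N hN x (-x)
  rw [neg_add_cancel, ← coeff_zero_eq_eval_zero] at this
  rw [this]
  refine Finset.sum_congr rfl fun k _ => ?_
  simp only [E, eval_mul, eval_C, eval_pow, eval_X]
  rw [neg_pow x]
  ring

theorem rep (p : ℝ[X]) :
    T p = ∑ k ∈ Finset.range (p.natDegree + 1), Q k * derivative^[k] p := by
  apply Polynomial.funext
  intro x
  set N := p.natDegree + 1 with hN
  have d1 : (derivative p).natDegree < N := (natDegree_derivative_le p).trans_lt (by omega)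
  have d2 : (derivative (derivative p)).natDegree < N :=
    (natDegree_derivative_le _).trans_lt (by omega)
  have h0 := at0 p N (by omega) x
  have h1 := at0 _ N d1 x
  have h2 := at0 _ N d2 x
  have z0 : (derivative^[N] p).eval x = 0 := by
    rw [iterate_derivative_eq_zero (by omega), eval_zero]
  have z1 : (derivative^[N + 1] p).eval x = 0 := by
    rw [iterate_derivative_eq_zero (by omega), eval_zero]
  simp only [← Function.iterate_succ_apply] at h1 h2
  rw [sum_sh (fun k => (E k).eval x) (fun k => (derivative^[k] p).eval x) N z0] at h1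
  rw [sum_sh (fun k => (E k).eval x) (fun k => (derivative^[k + 1] p).eval x) N z1,
    sum_sh (sh fun k => (E k).eval x) (fun k => (derivative^[k] p).eval x) N z0] at h2
  simp only [coeff_derivative] at h1 h2
  have e1 : p.coeff 1 = ∑ k ∈ Finset.range N,
      sh (fun k => (E k).eval x) k * (derivative^[k] p).eval x := by
    rw [← h1]; simp
  have e2 : p.coeff 2 = 1 / 2 * ∑ k ∈ Finset.range N,
      sh (sh fun k => (E k).eval x) k * (derivative^[k] p).eval x := by
    rw [← h2]; norm_num; ring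
  rw [T_apply, eval_finsetSum]
  simp only [eval_add, eval_smul, smul_eq_mul, eval_mul, eval_sub, eval_C, eval_X, eval_pow,
    eval_one]
  rw [h0, e1, e2]
  simp only [Finset.mul_sum, Finset.sum_mul, ← Finset.sum_add_distrib]
  refine Finset.sum_congr rfl fun k _ => ?_
  rcases k with _ | _ | k
  · simp [Q, sh]
  · simp only [Q, sh, zero_add, eval_add, eval_mul, eval_C, eval_X]; ring
  · simp only [Q, sh, eval_add, eval_mul, eval_C, eval_X, eval_sub, eval_pow, eval_one]; ring

theorem result :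
    ∃ (B : ℕ → ℝ[X]) (M : ℕ) (a : ℕ → ℝ[X]) (a0 : ℕ → ℝ)
      (T : ℝ[X] →ₗ[ℝ] ℝ[X]) (γ : ℕ → ℝ) (Q : ℕ → ℝ[X]),
      (∀ k, (B k).degree = k) ∧ 1 ≤ M ∧ a M ≠ 0 ∧
      (∀ k, a0 k • B k + ∑ j ∈ Finset.Icc 1 M, a j * derivative^[j] (B k) = 0) ∧
      (∀ k, T (B k) = γ k • B k) ∧
      (∀ p : ℝ[X], T p = ∑ k ∈ Finset.range (p.natDegree + 1), Q k * derivative^[k] p) ∧
      (∀ k, Q k ≠ 0) ∧
      (∀ p : ℝ[X], (p = 0 ∨ ∀ z : ℂ, aeval z p = 0 → z.im = 0) →
        (T p = 0 ∨ ∀ z : ℂ, aeval z (T p) = 0 → z.im = 0)) ∧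
      (0 < γ 0 ∧ 0 < γ 1 ∧ 0 < γ 2) ∧
      (Q 2).degree < (Q 1).degree := by
  have q1 : Q 1 = C 3 * X := by
    simp only [Q, E]
    apply Polynomial.funext; intro x; simp; ring
  have q2 : Q 2 = C (-1 / 2) := by
    simp only [Q, E]
    apply Polynomial.funext; intro x; simp [Nat.factorial]; ring
  refine ⟨B, 3, fun j => if j = 3 then X ^ 3 else 0, fun k => -(k.descFactorial 3 : ℝ), T, γ, Q,
    ?_, by norm_num, by simp, ?_, ?_, rep, ?_, ?_, by simp [γ], ?_⟩
  · intro k
    unfold B
    split_ifs with h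
    · rw [h]; exact degree_X_pow_sub_C (by norm_num) _
    · exact degree_X_pow k
  · intro k
    have : Finset.Icc 1 3 = {1, 2, 3} := by decide
    rw [this]
    simp only [B]
    rcases k with _ | _ | _ | k
    · simp
    · simp
    · simp [Nat.descFactorial]
    · have h : k + 1 + 1 + 1 ≠ 2 := by omega
      simp only [h, if_false]
      rw [Finset.sum_insert (by decide), Finset.sum_insert (by decide), Finset.sum_singleton]
      simp only [show (1 : ℕ) ≠ 3 by decide, show (2 : ℕ) ≠ 3 by decide, if_false, if_true,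
        zero_mul, zero_add, iterate_derivative_X_pow_eq_smul]
      rw [mul_smul_comm, ← pow_add, show 3 + (k + 1 + 1 + 1 - 3) = k + 1 + 1 + 1 by omega,
        neg_smul, neg_add_cancel]
  · intro k
    rw [T_apply]
    rcases k with _ | _ | _ | k
    · simp [B, γ, coeff_one]
    · simp [B, γ, coeff_X, smul_eq_C_mul]
    · apply Polynomial.funext; intro x
      simp [B, γ, coeff_X_pow, coeff_C]
      ring
    · have h : k + 1 + 1 + 1 ≠ 2 := by omega
      simp [B, γ, h, coeff_X_pow]
  · intro k hk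
    rcases k with _ | _ | k
    · simp [Q, E] at hk
    · rw [q1] at hk; simp at hk
    · have := congrArg (fun r => r.coeff k) hk
      have e : Q (k + 1 + 1) = X ^ k * (X * (C ((-1 : ℝ) ^ (k + 2) / (k + 2).factorial) * X +
          C 4 * C ((-1 : ℝ) ^ (k + 1) / (k + 1).factorial) * X +
          C (1 / 2) * C 7 * C ((-1 : ℝ) ^ k / k.factorial) * X) -
          C (1 / 2 * ((-1 : ℝ) ^ k / k.factorial))) := by
        simp only [Q, E, C_mul]
        ring
      rw [e] at this
      have h2 := coeff_X_pow_mul (X * (C ((-1 : ℝ) ^ (k + 2) / (k + 2).factorial) * X +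
          C 4 * C ((-1 : ℝ) ^ (k + 1) / (k + 1).factorial) * X +
          C (1 / 2) * C 7 * C ((-1 : ℝ) ^ k / k.factorial) * X) -
          C (1 / 2 * ((-1 : ℝ) ^ k / k.factorial))) k 0
      rw [zero_add] at h2
      simp only [h2, coeff_sub, coeff_X_mul_zero, coeff_C_zero, coeff_zero] at this
      have h1 : (k.factorial : ℝ) ≠ 0 := by exact_mod_cast Nat.factorial_ne_zero _
      have h3 : (1 / 2 * ((-1 : ℝ) ^ k / k.factorial)) ≠ 0 := by positivity
      exact h3 (by linarith)
  · rintro p (rfl | hp)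
    · left; simp
    · by_cases h0 : T p = 0
      · exact Or.inl h0
      right
      intro z hz
      have hn := newton p hp
      refine quad_real (7 * p.coeff 2) (4 * p.coeff 1) (p.coeff 0 - p.coeff 2) ?_ ?_ z ?_
      · nlinarith [sq_nonneg (p.coeff 1), sq_nonneg (p.coeff 2)]
      · by_contra h
        push Not at h
        obtain ⟨h1, h2, h3⟩ := h
        apply h0
        have a2 : p.coeff 2 = 0 := by linarith
        have a1 : p.coeff 1 = 0 := by linarith
        have a0 : p.coeff 0 = 0 := by linarith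
        rw [T_apply, a0, a1, a2]
        simp
      · rw [T_apply] at hz
        simp only [map_add, map_smul, map_one, map_mul, map_sub, map_pow, aeval_C, aeval_X,
          Complex.real_smul, Complex.coe_algebraMap] at hz
        push_cast at hz ⊢
        linear_combination hz
  · rw [q1, q2, degree_C (by norm_num), degree_C_mul_X (by norm_num)]
    exact zero_lt_one

end Pool.Agent.Results.MP_f79668_an.NotMonotone
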